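import Mathlib
import Pool.Agent.H380.AG.Stm

set_option autoImplicit false

open MeasureTheory Metric Set Filter Topology
open scoped ENNReal RealInnerProductSpace

namespace Pool.Agent.H975.AG

open Pool.Agent.W778.AG Pool.Agent.H380.AG

/-- the points of `K` whose fibre under `q` meets `K` in one point only -/
def Lset {n m : ℕ} (q : En n →L[ℝ] En m) (K : Set (En n)) : Set (En n) :=
  {y | y ∈ K ∧ ∀ z ∈ K, z ≠ y → q (z - y) ≠ 0}

/-- the points with a partner at distance at least `1/(j+1)` -/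
def Bset {n m : ℕ} (q : En n →L[ℝ] En m) (K : Set (En n)) (j : ℕ) : Set (En n) :=
  {y | y ∈ K ∧ ∃ z ∈ K, 1 / ((j : ℝ) + 1) ≤ dist z y ∧ q (z - y) = 0}

theorem Bset_compact {n m : ℕ} (q : En n →L[ℝ] En m) {K : Set (En n)} (hK : IsCompact K) (j : ℕ) :
    IsCompact (Bset q K j) := by
  have h1 : IsCompact ((K ×ˢ K) ∩ {p : En n × En n | 1 / ((j : ℝ) + 1) ≤ dist p.2 p.1 ∧
      q (p.2 - p.1) = 0}) := by
    apply (hK.prod hK).inter_right
    have c1 : IsClosed {p : En n × En n | 1 / ((j : ℝ) + 1) ≤ dist p.2 p.1} :=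
      isClosed_le continuous_const (continuous_snd.dist continuous_fst)
    have c2 : IsClosed {p : En n × En n | q (p.2 - p.1) = 0} :=
      isClosed_eq (q.continuous.comp (continuous_snd.sub continuous_fst)) continuous_const
    exact c1.inter c2
  have h2 : Bset q K j = Prod.fst '' ((K ×ˢ K) ∩ {p : En n × En n | 1 / ((j : ℝ) + 1) ≤ dist p.2 p.1 ∧
      q (p.2 - p.1) = 0}) := by
    ext y
    constructor
    · rintro ⟨hy, z, hz, h3, h4⟩
      exact ⟨(y, z), ⟨⟨hy, hz⟩, h3, h4⟩, rfl⟩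
    · rintro ⟨⟨y', z⟩, ⟨⟨hy, hz⟩, h3, h4⟩, rfl⟩
      exact ⟨hy, z, hz, h3, h4⟩
  rw [h2]
  exact h1.image continuous_fst

theorem Lset_eq {n m : ℕ} (q : En n →L[ℝ] En m) (K : Set (En n)) :
    Lset q K = K \ ⋃ j, Bset q K j := by
  ext y
  simp only [Lset, Bset, mem_ofPred_eq, Set.mem_sdiff, Set.mem_iUnion, not_exists, not_and]
  constructor
  · rintro ⟨hy, h⟩
    refine ⟨hy, ?_⟩
    intro j _ z hz hd hq
    refine h z hz ?_ hq
    rintro rfl
    rw [dist_self] at hd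
    have : (0 : ℝ) < 1 / ((j : ℝ) + 1) := by positivity
    linarith
  · rintro ⟨hy, h⟩
    refine ⟨hy, ?_⟩
    intro z hz hne hq
    obtain ⟨j, hj⟩ := exists_nat_one_div_lt (dist_pos.2 hne)
    exact h j hy z hz hj.le hq

theorem Lset_meas {n m : ℕ} (q : En n →L[ℝ] En m) {K : Set (En n)} (hK : IsCompact K) :
    MeasurableSet (Lset q K) := by
  rw [Lset_eq]
  exact hK.measurableSet.diff (MeasurableSet.iUnion fun j => (Bset_compact q hK j).measurableSet)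

theorem Lset_inj {n m : ℕ} (q : En n →L[ℝ] En m) (K : Set (En n)) : InjOn q (Lset q K) := by
  intro y hy y' hy' h
  by_contra hne
  refine hy.2 y' hy'.1 (fun e => hne e.symm) ?_
  rw [map_sub, h, sub_self]

theorem t_RIGHT (h1 : S_SLICE) (h2 : S_FROST) (h3 : S_SB2) : S_RIGHT := by
  intro n hn K hK hdim
  obtain ⟨r, hr1, hr2⟩ := ENNReal.lt_iff_exists_nnreal_btwn.1 hdim
  have hs : 3 / 4 * (n : ℝ) < (r : ℝ) := by
    by_contra hcon
    push Not at hcon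
    have h4 := ENNReal.ofReal_le_ofReal hcon
    rw [ENNReal.ofReal_coe_nnreal] at h4
    exact absurd hr1 (not_lt.2 h4)
  have hn0 : (2 : ℝ) ≤ n := by exact_mod_cast hn
  have hs0 : 0 < (r : ℝ) := by linarith
  have hdim' : ENNReal.ofReal (r : ℝ) < dimH K := by
    rw [ENNReal.ofReal_coe_nnreal]
    exact hr2
  obtain ⟨ν, C', hν, hνK, hC', hgr⟩ := h2 n K hK r hs0 hdim'
  have hnml : n = (n + 1) / 2 + n / 2 := by omega
  have hm1 : 1 ≤ (n + 1) / 2 := by omega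
  have hl1 : 1 ≤ n / 2 := by omega
  have hm : (((n + 1) / 2 : ℕ) : ℝ) < r := by
    have h4 : (((n + 1) / 2 : ℕ) : ℝ) * 2 ≤ (n : ℝ) + 1 := by
      have : ((n + 1) / 2) * 2 ≤ n + 1 := Nat.div_mul_le_self _ _
      exact_mod_cast this
    linarith
  have hl : ((n / 2 : ℕ) : ℝ) < r := by
    have h4 : ((n / 2 : ℕ) : ℝ) * 2 ≤ (n : ℝ) := by
      have : (n / 2) * 2 ≤ n := Nat.div_mul_le_self _ _
      exact_mod_cast this
    linarith
  generalize (n + 1) / 2 = m at hnml hm1 hm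
  generalize n / 2 = l at hnml hl1 hl
  obtain ⟨Ω, mΩ, P, p₁, p₂, C, hP, hPs, hC, hp1, hp2, hperp, hball⟩ := h3 n m l hnml hm1 hl1
  have a1 := h1 n m Ω mΩ P p₁ C C' r ν K hPs hp1 (fun w hw δ hδ => (hball w hw δ hδ).1)
    inferInstance hK hνK hm hC hC' hgr
  have a2 := h1 n l Ω mΩ P p₂ C C' r ν K hPs hp2 (fun w hw δ hδ => (hball w hw δ hδ).2)
    inferInstance hK hνK hl hC hC' hgr
  have : NeBot (ae P) := ae_neBot.2 hP
  obtain ⟨o, ho1, ho2⟩ := (a1.and a2).exists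
  have n1 := ho1 _ (Lset_meas (p₁ o) hK) (Lset_inj _ _)
  have n2 := ho2 _ (Lset_meas (p₂ o) hK) (Lset_inj _ _)
  have n3 : ν (Kᶜ ∪ (Lset (p₁ o) K ∪ Lset (p₂ o) K)) = 0 :=
    measure_union_null hνK (measure_union_null n1 n2)
  obtain ⟨y, hy⟩ : ∃ y, y ∉ Kᶜ ∪ (Lset (p₁ o) K ∪ Lset (p₂ o) K) := by
    by_contra hcon
    push Not at hcon
    have : Kᶜ ∪ (Lset (p₁ o) K ∪ Lset (p₂ o) K) = univ := eq_univ_of_forall hcon
    rw [this, measure_univ] at n3
    exact one_ne_zero n3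
  simp only [mem_union, mem_compl_iff, not_or, not_not] at hy
  obtain ⟨hyK, hy1, hy2⟩ := hy
  have key : ∀ {k : ℕ} (q : En n →L[ℝ] En k), y ∉ Lset q K → ∃ z ∈ K, z ≠ y ∧ q (z - y) = 0 := by
    intro k q hq
    by_contra hcon
    push Not at hcon
    exact hq ⟨hyK, hcon⟩
  obtain ⟨x, hxK, hxy, hx⟩ := key _ hy1
  obtain ⟨z, hzK, hzy, hz⟩ := key _ hy2
  have hin : ⟪x - y, z - y⟫ = 0 := hperp o _ _ hx hz
  refine ⟨x, hxK, y, hyK, z, hzK, hxy, hzy.symm, ?_, ?_⟩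
  · rintro rfl
    rw [inner_self_eq_zero (𝕜 := ℝ), sub_eq_zero] at hin
    exact hxy hin
  · unfold EuclideanGeometry.angle
    rw [vsub_eq_sub, vsub_eq_sub]
    exact (InnerProductGeometry.inner_eq_zero_iff_angle_eq_pi_div_two _ _).1 hin

end Pool.Agent.H975.AG

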